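import Mathlib

set_option autoImplicit false

namespace Pool.Agent.Results.MP_199736_pr.Diamond

/-- Total variation distance between two mass functions on a finite set. -/
noncomputable def tv {Ω : Type} (μ ν : Ω → ℝ) : ℝ :=
  ⨆ A : Finset Ω, |∑ z ∈ A, μ z - ∑ z ∈ A, ν z|

noncomputable def P : Matrix (Bool × Bool) (Bool × Bool) ℝ := fun x y =>
  match x, y with
  | (false, false), (false, false) => 2 / 3
  | (false, false), (true, false) => 1 / 3
  | (true, false), (true, false) => 0
  | (true, false), _ => 1 / 3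
  | (false, true), (true, false) => 1
  | (true, true), (true, false) => 1 / 3
  | (true, true), (true, true) => 2 / 3
  | _, _ => 0

noncomputable def w : Bool × Bool → ℝ := fun x =>
  match x with
  | (false, true) => 1 / 10
  | _ => 3 / 10

lemma mono_iff (f : Bool × Bool → ℝ) : Monotone f ↔
    f (false, false) ≤ f (true, false) ∧ f (false, false) ≤ f (false, true) ∧
    f (true, false) ≤ f (true, true) ∧ f (false, true) ≤ f (true, true) := by
  refine ⟨fun h => ⟨h (by decide), h (by decide), h (by decide), h (by decide)⟩, ?_⟩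
  rintro ⟨h1, h2, h3, h4⟩ ⟨a, b⟩ ⟨c, d⟩ h
  cases a <;> cases b <;> cases c <;> cases d <;>
    first | exact absurd h (by decide) | linarith

lemma mono_step (f : Bool × Bool → ℝ) (hf : Monotone f) : Monotone (P.mulVec f) := by
  rw [mono_iff] at hf ⊢
  obtain ⟨h1, h2, h3, h4⟩ := hf
  simp only [Matrix.mulVec, dotProduct, Fintype.sum_prod_type, Fintype.sum_bool, P]
  refine ⟨?_, ?_, ?_, ?_⟩ <;> linarith

lemma rev (t : ℕ) : ∀ x y, w x * (P ^ t) x y = w y * (P ^ t) y x := by
  have h1 : ∀ x y, w x * P x y = w y * P y x := by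
    rintro ⟨a, b⟩ ⟨c, d⟩
    cases a <;> cases b <;> cases c <;> cases d <;> norm_num [w, P]
  induction t with
  | zero =>
    intro x y
    by_cases h : x = y
    · rw [h]
    · simp [Matrix.one_apply, h, Ne.symm h]
  | succ t ih =>
    intro x y
    conv_lhs => rw [pow_succ]
    conv_rhs => rw [pow_succ']
    simp only [Matrix.mul_apply, Finset.mul_sum]
    refine Finset.sum_congr rfl fun z _ => ?_
    rw [← mul_assoc, ih x z, ← mul_assoc, ← h1 z y]
    ring

theorem result : ∃ (P : Matrix (Bool × Bool) (Bool × Bool) ℝ) (π : Bool × Bool → ℝ),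
    (∀ x y, 0 ≤ P x y) ∧ (∀ x, ∑ y, P x y = 1) ∧ (∀ x y, 0 < (P ^ 4) x y) ∧
    (∀ x, 0 < π x) ∧ ∑ x, π x = 1 ∧
    (∀ (t : ℕ) x y, π x * (P ^ t) x y = π y * (P ^ t) y x) ∧
    (∀ (t : ℕ) (A : Finset (Bool × Bool)), IsUpperSet (A : Set (Bool × Bool)) →
      ∀ x y, x ≤ y → ∑ z ∈ A, (P ^ t) x z ≤ ∑ z ∈ A, (P ^ t) y z) ∧
    ∃ (t : ℕ) (x y : Bool × Bool), tv ((P ^ t) ⊤) ((P ^ t) ⊥) < tv ((P ^ t) x) ((P ^ t) y) := by
  refine ⟨P, w, ?_, ?_, ?_, ?_, ?_, rev, ?_, 1, (false, true), (true, false), ?_⟩
  · rintro ⟨a, b⟩ ⟨c, d⟩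
    cases a <;> cases b <;> cases c <;> cases d <;> norm_num [P]
  · rintro ⟨a, b⟩
    cases a <;> cases b <;> norm_num [P, Fintype.sum_prod_type]
  · rintro ⟨a, b⟩ ⟨c, d⟩
    cases a <;> cases b <;> cases c <;> cases d <;>
      norm_num [pow_succ, Matrix.mul_apply, P, Fintype.sum_prod_type]
  · rintro ⟨a, b⟩
    cases a <;> cases b <;> norm_num [w]
  · norm_num [w, Fintype.sum_prod_type]
  · intro t A hA
    have h : Monotone ((P ^ t).mulVec fun z => if z ∈ A then 1 else 0) := by
      induction t with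
      | zero =>
        rw [pow_zero, Matrix.one_mulVec]
        intro x y hxy
        by_cases hx : x ∈ A
        · have hy : y ∈ A := hA hxy hx
          simp [hx, hy]
        · simp only [hx, if_false]
          split_ifs <;> norm_num
      | succ t ih =>
        rw [pow_succ', ← Matrix.mulVec_mulVec]
        exact mono_step _ ih
    intro x y hxy
    simpa [Matrix.mulVec, dotProduct, Finset.sum_ite_mem] using h hxy
  · rw [pow_one]
    have h1 : tv (P ⊤) (P ⊥) ≤ 2 / 3 := by
      refine ciSup_le fun A => ?_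
      rw [← Finset.sum_sub_distrib, ← Finset.univ_inter A, ← Finset.sum_ite_mem]
      have ht : (⊤ : Bool × Bool) = (true, true) := rfl
      have hb : (⊥ : Bool × Bool) = (false, false) := rfl
      simp only [Fintype.sum_prod_type, Fintype.sum_bool, P, ht, hb]
      rw [abs_le]
      split_ifs <;> norm_num
    have h2 : 1 ≤ tv (P (false, true)) (P (true, false)) := by
      refine le_trans ?_ (le_ciSup (Finite.bddAbove_range _) {(true, false)})
      simp [P]
    linarith

end Pool.Agent.Results.MP_199736_pr.Diamond
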